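import Pool.Agent.W37.SG.Stm

/-!
# MP_9a3597_al, project SG, part X3: existence of the special element `X`
-/

set_option autoImplicit false

namespace Pool.Agent.W899.SG.X3

open Pool.Agent.W37.SG

lemma val_ed {p : ℕ} [hp : Fact p.Prime] {v u : ℕ} (hu : ¬ p ∣ u) :
    padicValNat p (p ^ v * u) = v ∧ ed p (p ^ v * u) = (u : ZMod p) := by
  have hu0 : u ≠ 0 := by
    rintro rfl
    exact hu (dvd_zero p)
  have h1 : padicValNat p (p ^ v * u) = v := by
    rw [padicValNat.mul (pow_ne_zero _ hp.out.ne_zero) hu0, padicValNat.prime_pow,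
      padicValNat.eq_zero_of_not_dvd hu, add_zero]
  refine ⟨h1, ?_⟩
  rw [ed, h1, Nat.mul_div_cancel_left _ (pow_pos hp.out.pos _), ZMod.natCast_mod]

lemma decomp {p : ℕ} [hp : Fact p.Prime] {i : ℕ} (hi : i ≠ 0) :
    ∃ v u, i = p ^ v * u ∧ ¬ p ∣ u := by
  obtain ⟨v, u, hu, hi'⟩ := Nat.exists_eq_pow_mul_and_not_dvd hi p hp.out.ne_one
  exact ⟨v, u, hi', hu⟩

lemma ed_ne {p : ℕ} [hp : Fact p.Prime] {i : ℕ} (hi : i ≠ 0) : ed p i ≠ 0 := by
  obtain ⟨v, u, rfl, hu⟩ := decomp (p := p) hi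
  rw [(val_ed hu).2, Ne, ZMod.natCast_eq_zero_iff]
  exact hu

lemma sub_q {p : ℕ} [hp : Fact p.Prime] {i s : ℕ} (hi : p ^ s < i) (hd : ¬ p ^ s ∣ i) :
    padicValNat p (i - p ^ s) = padicValNat p i ∧ ed p (i - p ^ s) = ed p i := by
  obtain ⟨v, u, rfl, hu⟩ := decomp (p := p) (i := i) (by omega)
  have hvs : v < s := by
    by_contra h
    push Not at h
    exact hd ((pow_dvd_pow p h).trans (dvd_mul_right _ _))
  have hps : p ^ s = p ^ v * p ^ (s - v) := by
    rw [← pow_add]; congr 1; omega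
  have hle : p ^ (s - v) ≤ u := by
    rw [hps] at hi
    exact (Nat.lt_of_mul_lt_mul_left hi).le
  have hpd : p ∣ p ^ (s - v) := dvd_pow_self p (by omega)
  have hu' : ¬ p ∣ u - p ^ (s - v) := by
    intro h
    apply hu
    have := (Nat.dvd_add_iff_left hpd).1 h
    rwa [Nat.sub_add_cancel hle] at this
  have e : p ^ v * u - p ^ s = p ^ v * (u - p ^ (s - v)) := by
    rw [hps, Nat.mul_sub]
  rw [e, (val_ed hu').1, (val_ed hu').2, (val_ed hu).1, (val_ed hu).2]
  refine ⟨rfl, ?_⟩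
  rw [Nat.cast_sub hle, (ZMod.natCast_eq_zero_iff _ _).2 hpd, sub_zero]

lemma val_ge {p : ℕ} [hp : Fact p.Prime] {m s : ℕ} (hm : m ≠ 0) :
    s ≤ padicValNat p (p ^ s * m) := by
  rw [padicValNat.mul (pow_ne_zero _ hp.out.ne_zero) hm, padicValNat.prime_pow]
  omega

lemma U_mono {p a b : ℕ} (h : a ≤ b) : U p a ≤ U p b := by
  apply Submodule.span_mono
  rintro f ⟨i, hi, rfl⟩
  exact ⟨i, by omega, rfl⟩

/-- depth raise -/
lemma dep_raise {p : ℕ} [hp : Fact p.Prime] {d : ℕ} {g : Pm p} (hg : Dep p d g) {b : ℕ → ZMod p}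
    (hl : Lead p d g b) (hb : ∀ i, d ≤ i → b i = 0) : Dep p (d + 1) g := by
  intro n f hf
  induction hf using Submodule.span_induction with
  | mem f hf =>
    obtain ⟨i, hi, rfl⟩ := hf
    by_cases hid : d ≤ i
    · have h := hl i hid
      rw [hb i hid] at h
      simp only [zero_mul, sub_zero] at h
      exact U_mono (by omega) h
    · have h := hg (i + 1) (mon p i) (Submodule.subset_span ⟨i, by omega, rfl⟩)
      exact U_mono (by omega) h
  | zero =>
    have := (U p (n - (d + 1))).zero_mem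
    convert this using 1
    funext x
    simp
  | add f f' _ _ h h' =>
    have := (U p (n - (d + 1))).add_mem h h'
    convert this using 1
    funext x
    simp only [Pi.add_apply]
    ring
  | smul c f _ h =>
    have := (U p (n - (d + 1))).smul_mem c h
    convert this using 1
    funext x
    simp only [Pi.smul_apply, smul_eq_mul]
    ring

theorem main : Pool.Agent.W37.SG.S_X3 := by
  intro hD2 _hD4 hDC hX1 p _ s Q Qk hT hprop
  have hp : p.Prime := Fact.out
  obtain ⟨x, hxQ, hx⟩ := hT.tau_ne s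
  have hxv : ∀ v, s ≤ v → tau p v x ≠ 0 := by
    intro v hv h0
    obtain ⟨h, hhQ, hh⟩ := hT.tau_ne v
    have := hprop s v le_rfl hv x hxQ h hhQ
    rw [h0, mul_zero] at this
    exact (mul_ne_zero hx hh) this
  obtain ⟨C, hC, hX⟩ := hX1 hD2 _hD4 hDC p hT.odd Q hT.tri hT.tau_ne s
  obtain ⟨X, hXQ, hXd, hXl⟩ := hX x hxQ
  have hqpos : 0 < p ^ s := pow_pos hp.pos s
  refine ⟨X, hXQ, hXd, ⟨_, hXl, ?_⟩, ?_⟩
  · intro i hi
    have hdiv : i / p ^ s ≠ 0 := (Nat.div_pos hi hqpos).ne'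
    refine mul_ne_zero hC ?_
    rw [cf]
    refine mul_ne_zero (ed_ne (mul_ne_zero hqpos.ne' hdiv)) (mul_ne_zero ?_ (hxv _ (val_ge hdiv)))
    exact pow_ne_zero _ (neg_ne_zero.2 one_ne_zero)
  · intro g hg
    obtain ⟨hg1, hg2⟩ := hD2 p g (hT.tri g hg)
    obtain ⟨⟨hc1, hc2⟩, _⟩ := hDC p 1 (p ^ s) g X _ _ le_rfl hqpos hg1 hXd hg2 hXl
    have e : p ^ s + 2 = (1 + p ^ s) + 1 := by ring
    rw [e]
    refine dep_raise hc1 hc2 ?_
    intro i hi
    by_cases hd : p ^ s ∣ i
    · obtain ⟨m, rfl⟩ := hd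
      have hm2 : 2 ≤ m := by
        by_contra h
        have : m ≤ 1 := by omega
        have : p ^ s * m ≤ p ^ s * 1 := Nat.mul_le_mul_left _ this
        omega
      have e1 : p ^ s * ((p ^ s * m - 1) / p ^ s) = p ^ s * (m - 1) := by
        congr 1
        have e2 : p ^ s * m - 1 = p ^ s * (m - 1) + (p ^ s - 1) := by
          have : p ^ s * m = p ^ s * (m - 1) + p ^ s := by
            rw [← Nat.mul_succ]
            congr 1
            omega
          omega
        rw [e2, Nat.mul_add_div hqpos, Nat.div_eq_of_lt (by omega), add_zero]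
      have e3 : p ^ s * m - p ^ s = p ^ s * (m - 1) := by
        rw [Nat.mul_sub, mul_one]
      rw [e1, e3, Nat.mul_div_cancel_left _ hqpos]
      have hv1 : s ≤ padicValNat p (p ^ s * m) := val_ge (by omega)
      have hv2 : s ≤ padicValNat p (p ^ s * (m - 1)) := val_ge (by omega)
      have hp' := hprop _ _ hv1 hv2 g hg x hxQ
      simp only [cf]
      linear_combination (C * ed p (p ^ s * m) * ed p (p ^ s * (m - 1)) *
        (-1) ^ padicValNat p (p ^ s * m) * (-1) ^ padicValNat p (p ^ s * (m - 1))) * hp'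
    · have hi' : p ^ s < i := by omega
      have e1 : (i - 1) / p ^ s = i / p ^ s := by
        have h := Nat.div_add_mod i (p ^ s)
        have hmod : i % p ^ s ≠ 0 := fun h0 => hd (Nat.dvd_of_mod_eq_zero h0)
        have hlt := Nat.mod_lt i hqpos
        have e2 : i - 1 = p ^ s * (i / p ^ s) + (i % p ^ s - 1) := by omega
        rw [e2, Nat.mul_add_div hqpos,
          Nat.div_eq_of_lt (show i % p ^ s - 1 < p ^ s by omega), add_zero]
      rw [e1]
      have hcf : cf p (i - p ^ s) g = cf p i g := by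
        rw [cf, cf, (sub_q hi' hd).1, (sub_q hi' hd).2]
      rw [hcf]
      ring

end Pool.Agent.W899.SG.X3
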